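import Pool.Agent.TH882.WM5
import Pool.Agent.TH882.WM7

/-!
Arbitrarily small random perturbations of the k-th powers: a linear bound for the number of
summands with the constant log (1/ε) + ε.
-/

set_option autoImplicit false

namespace Pool.Agent.Results.MP_45c923_nt.LinearOrderPerturbed

open MeasureTheory Filter

/-- The uniform probability measure on {0, 1, …, ⌊n^θ⌋}. -/
noncomputable def noise (θ : ℝ) (n : ℕ) : Measure ℕ :=
  (PMF.uniformOfFinset (Finset.range (⌊(n : ℝ) ^ θ⌋₊ + 1)) (by simp)).toMeasure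

/-- N is a sum of exactly s perturbed k-th powers n^k + m u_n with n ≥ 1. -/
def IsSum (k m s : ℕ) (u : ℕ → ℕ) (N : ℕ) : Prop :=
  ∃ f : Fin s → ℕ, (∀ l, 1 ≤ f l) ∧ N = ∑ l, (f l ^ k + m * u (f l))

lemma four_le_log {ε : ℝ} (h0 : 0 < ε) (h1 : ε ≤ 1 / 55) : 4 ≤ Real.log (1 / ε) := by
  have h2 : (55 : ℝ) ≤ 1 / ε := by
    rw [le_div_iff₀ h0]
    linarith
  have h3 : Real.exp 4 < 55 := by
    have h4 : (4 : ℝ) = ((4 : ℕ) : ℝ) * 1 := by norm_num
    rw [h4, Real.exp_nat_mul]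
    calc Real.exp 1 ^ 4 ≤ 2.7182818286 ^ 4 :=
          pow_le_pow_left₀ (Real.exp_pos _).le Real.exp_one_lt_d9.le 4
      _ < 55 := by norm_num
  rw [Real.le_log_iff_exp_le (by positivity)]
  linarith

/-- Let 0 < ε ≤ 1/55, k ≥ 2, m ≥ 1, and ε k ≤ θ ≤ k - 1. Let u_n be independent and uniform in
{0, …, ⌊n^θ⌋}. Almost surely, for all s ≥ (log (1/ε) + ε) k + 1, every large integer is a sum of
exactly s numbers n^k + m u_n, n ≥ 1. -/
theorem result (ε θ : ℝ) (k m : ℕ) (h0 : 0 < ε) (h1 : ε ≤ 1 / 55) (hk : 2 ≤ k) (hm : 1 ≤ m)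
    (h2 : ε * (k : ℝ) ≤ θ) (h3 : θ ≤ (k : ℝ) - 1) :
    ∀ᵐ u ∂(Measure.infinitePi (noise θ)), ∀ s : ℕ,
      (Real.log (1 / ε) + ε) * (k : ℝ) + 1 ≤ (s : ℝ) → ∀ᶠ N in atTop, IsSum k m s u N := by
  have hk0 : (0 : ℝ) < k := by exact_mod_cast (by omega : 0 < k)
  have hlog := four_le_log h0 h1
  set L := Real.log (1 / ε) with hL
  set j : ℕ := ⌊L * k⌋₊ + 1 with hj
  have hj1 : L * k < j := by
    rw [hj]
    push_cast
    exact Nat.lt_floor_add_one _
  have hj2 : (j : ℝ) ≤ L * k + 1 := by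
    rw [hj]
    push_cast
    have := Nat.floor_le (show 0 ≤ L * k by positivity)
    linarith
  have h4 : (1 - 1 / (k : ℝ)) ^ j < ε := by
    refine lt_of_le_of_lt (Pool.Agent.TH882.WM.exp_bound hk j) ?_
    have h5 : L < (j : ℝ) / k := by
      rw [lt_div_iff₀ hk0]
      exact hj1
    calc Real.exp (-((j : ℝ) / k)) < Real.exp (-L) := Real.exp_lt_exp.2 (by linarith)
      _ = ε := by
        rw [hL, one_div, Real.log_inv, neg_neg, Real.exp_log h0]
  have h5 : (k : ℝ) * (1 - 1 / (k : ℝ)) ^ j < k * ε := mul_lt_mul_of_pos_left h4 hk0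
  set s₀ : ℕ := ⌈(L + ε) * k + 1⌉₊ with hs₀
  have h6 : (L + ε) * k + 1 ≤ (s₀ : ℝ) := Nat.le_ceil _
  have h7 : (k : ℝ) * (1 - 1 / (k : ℝ)) ^ j < (s₀ : ℝ) - j := by linarith
  have h8 := Pool.Agent.TH882.WM.main_range (s₀ := s₀) hk hm h3 (by linarith) h7
  filter_upwards [h8] with u hu s hs
  have h9 : s₀ ≤ s := Nat.ceil_le.2 hs
  have h10 : 4 * k ≤ s := by
    have h11 : (4 : ℝ) * k ≤ L * k := mul_le_mul_of_nonneg_right hlog hk0.le
    have h12 : (0 : ℝ) ≤ ε * k := by positivity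
    have h13 : ((4 * k : ℕ) : ℝ) ≤ s := by
      push_cast
      linarith
    exact_mod_cast h13
  filter_upwards [hu s h9] with N hN
  exact hN.2 (Pool.Agent.TH882.WM.loc_four (by omega) hm h10 N)

end Pool.Agent.Results.MP_45c923_nt.LinearOrderPerturbed
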