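import Pool.Agent.TH696.WR.B

/-!
# Waring's function `G(k)` and local density

For fixed `0 < δ ≤ 1` and `0 < θ < 1` let `L δ θ k` be the least `s` such that for every large `Z`
there is an interval of length at least `Z ^ θ` inside `[0, Z]` in which the sums of `s` `k`-th
powers have density at least `δ`. Then `L δ θ k ≤ G k ≤ C(δ, θ) L δ θ k` for all `k ≥ 1`. Hence
`G(k) = O(k)` if and only if `O(k)` `k`-th powers have positive density in one such interval for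
each large `Z`, and only the exponents of a set containing a bounded multiple of each `k` need be
considered.
-/

set_option autoImplicit false

namespace Pool.Agent.Results.MP_45c923_nt.LocalDensity

open Filter Topology
open Pool.Agent.TH696.WR
open scoped Pointwise

/-- `n` is a sum of `s` `k`-th powers of nonnegative integers. -/
def IsSum (k s n : ℕ) : Prop := ∃ x : Fin s → ℕ, n = ∑ i, x i ^ k

/-- The number of integers `n` with `u ≤ n < u + H` that are sums of `s` `k`-th powers. -/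
noncomputable def cnt (k s u H : ℕ) : ℕ := {n : ℕ | u ≤ n ∧ n < u + H ∧ IsSum k s n}.ncard

/-- For every large `Z` there is an interval `[u, u + H)` inside `[0, Z)`, of length `H ≥ Z ^ θ`,
that contains at least `δ H` sums of `s` `k`-th powers. -/
def LocDense (δ θ : ℝ) (k s : ℕ) : Prop :=
  ∃ Z₀ : ℕ, ∀ Z : ℕ, Z₀ ≤ Z → ∃ u H : ℕ, (Z : ℝ) ^ θ ≤ H ∧ u + H ≤ Z ∧ δ * H ≤ cnt k s u H

/-- Waring's function: the least `s` such that every large integer is a sum of `s` `k`-th powers. -/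
noncomputable def G (k : ℕ) : ℕ := sInf {s : ℕ | ∃ n₀ : ℕ, ∀ n : ℕ, n₀ ≤ n → IsSum k s n}

/-- The least `s` such that `LocDense δ θ k s`. -/
noncomputable def L (δ θ : ℝ) (k : ℕ) : ℕ := sInf {s : ℕ | LocDense δ θ k s}

lemma of_isSum (k : ℕ) : ∀ s n : ℕ, IsSum k s n → (n : ℤ) ∈ s • P k := by
  intro s
  induction s with
  | zero =>
    rintro n ⟨x, hx⟩
    rw [Fin.sum_univ_zero] at hx
    rw [zero_nsmul, hx]
    exact Set.mem_zero.2 rfl
  | succ s ih =>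
    rintro n ⟨x, hx⟩
    rw [Fin.sum_univ_castSucc] at hx
    rw [succ_nsmul, hx]
    push_cast
    refine Set.add_mem_add ?_ ⟨x (Fin.last s), rfl⟩
    have := ih (∑ i : Fin s, x (Fin.castSucc i) ^ k) ⟨fun i => x (Fin.castSucc i), rfl⟩
    push_cast at this
    exact this

lemma to_isSum (k : ℕ) : ∀ (s : ℕ) (z : ℤ), z ∈ s • P k → ∃ m : ℕ, z = m ∧ IsSum k s m := by
  intro s
  induction s with
  | zero =>
    intro z hz
    rw [zero_nsmul] at hz
    refine ⟨0, ?_, fun _ => 0, ?_⟩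
    · exact Set.mem_zero.1 hz
    · rw [Fin.sum_univ_zero]
  | succ s ih =>
    intro z hz
    rw [succ_nsmul, Set.mem_add] at hz
    obtain ⟨a, ha, b, ⟨y, rfl⟩, rfl⟩ := hz
    obtain ⟨m, rfl, x, hx⟩ := ih a ha
    refine ⟨m + y ^ k, by push_cast; rfl, Fin.snoc x y, ?_⟩
    rw [Fin.sum_univ_castSucc]
    simp only [Fin.snoc_castSucc, Fin.snoc_last]
    rw [← hx]

lemma isSum_iff (k s n : ℕ) : IsSum k s n ↔ (n : ℤ) ∈ s • P k := by
  refine ⟨of_isSum k s n, fun h => ?_⟩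
  obtain ⟨m, hm, h2⟩ := to_isSum k s _ h
  have : n = m := by exact_mod_cast hm
  rw [this]
  exact h2

lemma IsSum.mono {k s t n : ℕ} (hk : 1 ≤ k) (hst : s ≤ t) (h : IsSum k s n) : IsSum k t n := by
  rw [isSum_iff] at h ⊢
  exact nsmul_mono_left (zero_mem hk) hst h

/-- a sum of `K`-th powers is a sum of `k`-th powers if `k ∣ K` -/
lemma IsSum.of_dvd {k K s n : ℕ} (hd : k ∣ K) (h : IsSum K s n) : IsSum k s n := by
  obtain ⟨e, rfl⟩ := hd
  obtain ⟨x, hx⟩ := h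
  refine ⟨fun i => x i ^ e, ?_⟩
  rw [hx]
  refine Finset.sum_congr rfl fun i _ => ?_
  rw [← pow_mul, mul_comm e k]

lemma finite_set (k s u H : ℕ) : {n : ℕ | u ≤ n ∧ n < u + H ∧ IsSum k s n}.Finite :=
  (Set.finite_lt_nat (u + H)).subset fun _ hn => hn.2.1

/-- **The quantitative inequality.** -/
theorem main1 {δ θ : ℝ} {m b : ℕ} (hδ : 0 < δ) (hθ : 0 < θ) (hm : 4 / δ ^ 2 ≤ m)
    (hb : 2 ≤ θ * 2 ^ b) {k s : ℕ} (hk : 1 ≤ k) (h : LocDense δ θ k s) :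
    ∃ n₀ : ℕ, ∀ n : ℕ, n₀ ≤ n → IsSum k ((4 * s + 1) * m + k * b) n := by
  classical
  obtain ⟨Z₀, hZ₀⟩ := h
  set c := (k * 2 ^ (k - 1)) ^ (k ^ 2) with hc
  obtain ⟨Z₁, hZ₁⟩ : ∃ Z₁ : ℕ, ∀ Z : ℕ, Z₁ ≤ Z → (c : ℝ) ≤ (Z : ℝ) ^ θ := by
    have h1 := ((tendsto_rpow_atTop hθ).comp tendsto_natCast_atTop_atTop).eventually_ge_atTop
      (c : ℝ)
    exact eventually_atTop.1 h1
  refine ⟨(Z₀ + Z₁ + 8 * m + 1) ^ 2, fun n hn => ?_⟩
  set r := Nat.sqrt n with hr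
  have hr1 : Z₀ + Z₁ + 8 * m + 1 ≤ r := by
    rw [hr, Nat.le_sqrt']
    exact hn
  have hr2 : r ^ 2 ≤ n := Nat.sqrt_le' n
  have hr3 : n < (r + 1) ^ 2 := Nat.lt_succ_sqrt' n
  obtain ⟨u, H, h1, h2, h3⟩ := hZ₀ (r + 1) (by omega)
  have hcH : c ≤ H := by
    have := (hZ₁ (r + 1) (by omega)).trans h1
    exact_mod_cast this
  have hc1 : 1 ≤ c := Nat.one_le_pow _ _ (by positivity)
  -- the dense set
  set S := {n : ℕ | u ≤ n ∧ n < u + H ∧ IsSum k s n} with hS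
  have hSf : S.Finite := finite_set k s u H
  set B : Finset ℤ := hSf.toFinset.image (fun n : ℕ => (n : ℤ)) with hB
  have hBcard : B.card = cnt k s u H := by
    rw [hB, Finset.card_image_of_injective _ Nat.cast_injective, cnt, ← hS,
      Set.ncard_eq_toFinset_card S hSf]
  have hBmem : ∀ z ∈ B, ∃ n : ℕ, z = n ∧ u ≤ n ∧ n < u + H ∧ IsSum k s n := by
    intro z hz
    rw [hB, Finset.mem_image] at hz
    obtain ⟨n, hn, rfl⟩ := hz
    rw [Set.Finite.mem_toFinset] at hn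
    exact ⟨n, rfl, hn⟩
  obtain ⟨σ, hσ1, hσ2, hσ3⟩ := comb B (u : ℤ) H m
    (fun z hz => by
      obtain ⟨n, rfl, ha, hb, _⟩ := hBmem z hz
      constructor
      · exact_mod_cast ha
      · exact_mod_cast hb)
    (hc1.trans hcH) δ hδ (by rw [hBcard]; exact h3) hm
  have hσ0 : 0 ≤ σ := by
    have : (0 : ℤ) ≤ u := Int.natCast_nonneg u
    linarith
  obtain ⟨t, rfl⟩ := Int.eq_ofNat_of_zero_le hσ0
  have hBP : (B : Set ℤ) ⊆ s • P k := by
    intro z hz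
    obtain ⟨n, rfl, _, _, hn⟩ := hBmem z hz
    exact of_isSum k s n hn
  have hstart : ∀ y : ℕ, y ≤ H → (((2 * m * t : ℕ) : ℤ) + y) ∈ (4 * m * s + m) • P k := by
    intro y hy
    obtain ⟨l, hl, hl2⟩ := hσ3 y hy
    have h4 : ((y : ℤ) - l + 2 * m * t) ∈ (4 * m * s) • P k := by
      rw [mul_nsmul']
      exact nsmul_mono_right hBP (4 * m) hl2
    have h5 : (l : ℤ) ∈ m • P k := by
      have h6 : (l : ℤ) ∈ l • ({1} : Set ℤ) := by
        rw [nsmul_one_set]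
        exact Set.mem_singleton _
      have h7 : (l : ℤ) ∈ l • P k :=
        nsmul_mono_right (Set.singleton_subset_iff.2 (one_mem k)) l h6
      exact nsmul_mono_left (zero_mem hk) hl.le h7
    rw [add_nsmul]
    refine Set.mem_add.2 ⟨_, h4, _, h5, ?_⟩
    push_cast
    ring
  have hX : 2 * m * t ≤ n := by
    have h8 : t ≤ 2 * (u + H) := by exact_mod_cast hσ2
    have h9 : t ≤ 2 * (r + 1) := by omega
    calc 2 * m * t ≤ 2 * m * (2 * (r + 1)) := Nat.mul_le_mul_left _ h9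
      _ ≤ r * r := by nlinarith
      _ ≤ n := by nlinarith
  have hy : n - 2 * m * t ≤ H ^ (2 ^ b) := by
    have h10 : ((r + 1 : ℕ) : ℝ) ^ 2 ≤ (H : ℝ) ^ (2 ^ b) := by
      have hr0 : (0 : ℝ) ≤ ((r + 1 : ℕ) : ℝ) := Nat.cast_nonneg _
      have hr1' : (1 : ℝ) ≤ ((r + 1 : ℕ) : ℝ) := by
        exact_mod_cast Nat.succ_le_succ (Nat.zero_le r)
      calc ((r + 1 : ℕ) : ℝ) ^ 2 = ((r + 1 : ℕ) : ℝ) ^ (2 : ℝ) := by
            rw [Real.rpow_two]
        _ ≤ ((r + 1 : ℕ) : ℝ) ^ (θ * ((2 ^ b : ℕ) : ℝ)) := by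
            apply Real.rpow_le_rpow_of_exponent_le hr1'
            push_cast
            exact hb
        _ = (((r + 1 : ℕ) : ℝ) ^ θ) ^ (2 ^ b) := by
            rw [Real.rpow_mul hr0, Real.rpow_natCast]
        _ ≤ (H : ℝ) ^ (2 ^ b) := by
            apply pow_le_pow_left₀ (Real.rpow_nonneg hr0 _) h1
    have h11 : (r + 1) ^ 2 ≤ H ^ (2 ^ b) := by exact_mod_cast h10
    omega
  have h12 := ascent_pow hk (4 * m * s + m) (2 * m * t) H b hcH hstart (n - 2 * m * t) hy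
  have h13 : ((2 * m * t : ℕ) : ℤ) + ((n - 2 * m * t : ℕ) : ℤ) = (n : ℤ) := by
    rw [← Nat.cast_add, Nat.add_sub_cancel' hX]
  rw [h13, ← isSum_iff] at h12
  have h14 : 4 * m * s + m + k * b = (4 * s + 1) * m + k * b := by ring
  rw [h14] at h12
  exact h12

/-- few `k`-th powers do not suffice -/
lemma le_of_locDense {δ θ : ℝ} (hδ : 0 < δ) {k s : ℕ} (hk : 1 ≤ k)
    (h : LocDense δ θ k s) : θ * k ≤ s := by
  by_contra hcon
  rw [not_le] at hcon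
  obtain ⟨Z₀, hZ₀⟩ := h
  have hpos : 0 < θ * k - s := by linarith
  have h1 := ((tendsto_rpow_atTop hpos).comp tendsto_natCast_atTop_atTop).eventually_gt_atTop
    (1 / δ)
  obtain ⟨W, hW1, hW2⟩ := (h1.and (eventually_ge_atTop (Z₀ + 1))).exists
  simp only [Function.comp_apply] at hW1
  have hZ : Z₀ ≤ W ^ k := by
    calc Z₀ ≤ W := by omega
      _ = W ^ 1 := (pow_one _).symm
      _ ≤ W ^ k := Nat.pow_le_pow_right (by omega) hk
  obtain ⟨u, H, h2, h3, h4⟩ := hZ₀ _ hZ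
  have hcnt : cnt k s u H ≤ W ^ s := by
    have hsub : {n : ℕ | u ≤ n ∧ n < u + H ∧ IsSum k s n} ⊆
        (fun x : Fin s → Fin W => ∑ i, ((x i : ℕ)) ^ k) '' Set.univ := by
      rintro n ⟨_, hn, x, hx⟩
      have hlt : ∀ i, x i < W := by
        intro i
        have h5 : x i ^ k ≤ n := by
          rw [hx]
          exact Finset.single_le_sum (f := fun i => x i ^ k) (fun _ _ => Nat.zero_le _)
            (Finset.mem_univ i)
        exact lt_of_pow_lt_pow_left₀ k (Nat.zero_le W) (by omega)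
      exact ⟨fun i => ⟨x i, hlt i⟩, Set.mem_univ _, hx.symm⟩
    calc cnt k s u H ≤ ((fun x : Fin s → Fin W => ∑ i, ((x i : ℕ)) ^ k) '' Set.univ).ncard :=
          Set.ncard_le_ncard hsub (Set.toFinite _)
      _ ≤ (Set.univ : Set (Fin s → Fin W)).ncard := Set.ncard_image_le (Set.toFinite _)
      _ = W ^ s := by
          rw [Set.ncard_univ, Nat.card_eq_fintype_card, Fintype.card_fun, Fintype.card_fin,
            Fintype.card_fin]
  have hW0 : (0 : ℝ) < (W : ℝ) := by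
    have : 0 < W := by omega
    exact_mod_cast this
  have h6 : δ * ((W : ℝ) ^ (θ * k)) ≤ (W : ℝ) ^ (s : ℝ) := by
    calc δ * ((W : ℝ) ^ (θ * k)) = δ * (((W ^ k : ℕ) : ℝ) ^ θ) := by
          push_cast
          rw [← Real.rpow_natCast, ← Real.rpow_mul hW0.le, mul_comm θ]
      _ ≤ δ * H := mul_le_mul_of_nonneg_left h2 hδ.le
      _ ≤ cnt k s u H := h4
      _ ≤ (W : ℝ) ^ (s : ℝ) := by
          rw [Real.rpow_natCast]
          exact_mod_cast hcnt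
  have h7 : (W : ℝ) ^ (θ * k) = (W : ℝ) ^ (θ * k - s) * (W : ℝ) ^ (s : ℝ) := by
    rw [← Real.rpow_add hW0]
    congr 1
    ring
  rw [h7] at h6
  have h8 : 0 < (W : ℝ) ^ (s : ℝ) := Real.rpow_pos_of_pos hW0 _
  have h9 : 1 < δ * (W : ℝ) ^ (θ * k - s) := by
    rw [div_lt_iff₀ hδ] at hW1
    linarith [mul_comm δ ((W : ℝ) ^ (θ * k - s))]
  nlinarith

/-- **A linear bound in terms of `s`.** -/
theorem main2 {δ θ : ℝ} (hδ : 0 < δ) (hθ : 0 < θ) :
    ∃ C : ℕ, ∀ k : ℕ, 1 ≤ k → ∀ s : ℕ, LocDense δ θ k s →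
      ∃ n₀ : ℕ, ∀ n : ℕ, n₀ ≤ n → IsSum k (C * s) n := by
  obtain ⟨b, hb⟩ := pow_unbounded_of_one_lt (2 / θ) (one_lt_two : (1 : ℝ) < 2)
  have hb2 : 2 ≤ θ * 2 ^ b := by
    rw [div_lt_iff₀ hθ] at hb
    linarith [mul_comm θ (2 ^ b)]
  set m := ⌈4 / δ ^ 2⌉₊ with hm
  refine ⟨5 * m + ⌈(b : ℝ) / θ⌉₊, fun k hk s hs => ?_⟩
  obtain ⟨n₀, hn₀⟩ := main1 hδ hθ (Nat.le_ceil _) hb2 hk hs
  refine ⟨n₀, fun n hn => (hn₀ n hn).mono hk ?_⟩
  have h1 := le_of_locDense hδ hk hs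
  have hk0 : (0 : ℝ) < k := by exact_mod_cast hk
  have hs0 : 0 < s := by
    have : (0 : ℝ) < s := lt_of_lt_of_le (by positivity) h1
    exact_mod_cast this
  have h2 : k * b ≤ ⌈(b : ℝ) / θ⌉₊ * s := by
    have h3 : (k : ℝ) * b ≤ ⌈(b : ℝ) / θ⌉₊ * s := by
      have h4 : (k : ℝ) ≤ s / θ := by
        rw [le_div_iff₀ hθ]
        linarith [mul_comm θ (k : ℝ)]
      calc (k : ℝ) * b ≤ (s / θ) * b := mul_le_mul_of_nonneg_right h4 (Nat.cast_nonneg _)
        _ = ((b : ℝ) / θ) * s := by ring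
        _ ≤ ⌈(b : ℝ) / θ⌉₊ * s := mul_le_mul_of_nonneg_right (Nat.le_ceil _) (Nat.cast_nonneg _)
    exact_mod_cast h3
  calc (4 * s + 1) * m + k * b ≤ (5 * s) * m + ⌈(b : ℝ) / θ⌉₊ * s := by
        apply Nat.add_le_add _ h2
        exact Nat.mul_le_mul_right _ (by omega)
    _ = (5 * m + ⌈(b : ℝ) / θ⌉₊) * s := by ring

/-- the trivial direction -/
lemma locDense_of_all {δ θ : ℝ} (hδ : δ ≤ 1) (hθ : θ < 1) {k s : ℕ}
    (h : ∃ n₀ : ℕ, ∀ n : ℕ, n₀ ≤ n → IsSum k s n) : LocDense δ θ k s := by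
  obtain ⟨n₀, hn₀⟩ := h
  have h1 : ∀ᶠ Z : ℕ in atTop, (Z : ℝ) ^ (-(1 - θ)) ≤ 1 / 2 := by
    have := (tendsto_rpow_neg_atTop (show 0 < 1 - θ by linarith)).comp
      tendsto_natCast_atTop_atTop
    exact this.eventually_le_const (by norm_num : (0 : ℝ) < 1 / 2)
  obtain ⟨Z₁, hZ₁⟩ := eventually_atTop.1 h1
  refine ⟨Z₁ + 2 * n₀ + 2, fun Z hZ => ?_⟩
  have hZ0 : (0 : ℝ) < (Z : ℝ) := by
    have : 0 < Z := by omega
    exact_mod_cast this
  have h2 : (Z : ℝ) ^ θ ≤ Z / 2 := by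
    have h3 := hZ₁ Z (by omega)
    have h4 : (Z : ℝ) ^ θ = Z * (Z : ℝ) ^ (-(1 - θ)) := by
      nth_rewrite 2 [← Real.rpow_one (Z : ℝ)]
      rw [← Real.rpow_add hZ0]
      congr 1
      ring
    rw [h4]
    nlinarith
  set H := ⌈(Z : ℝ) ^ θ⌉₊ with hH
  have h5 : (H : ℝ) < Z / 2 + 1 :=
    (Nat.ceil_lt_add_one (Real.rpow_nonneg hZ0.le _)).trans_le (by linarith)
  have h6 : 2 * H < Z + 2 := by
    have : (2 * H : ℝ) < Z + 2 := by linarith
    exact_mod_cast this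
  refine ⟨Z - H, H, Nat.le_ceil _, by omega, ?_⟩
  have h7 : cnt k s (Z - H) H = H := by
    rw [cnt]
    have : {n : ℕ | Z - H ≤ n ∧ n < Z - H + H ∧ IsSum k s n} =
        ((Finset.Ico (Z - H) (Z - H + H) : Finset ℕ) : Set ℕ) := by
      ext n
      simp only [Set.mem_ofPred_eq, Finset.coe_Ico, Set.mem_Ico]
      constructor
      · rintro ⟨a, b, _⟩
        exact ⟨a, b⟩
      · rintro ⟨a, b⟩
        exact ⟨a, b, hn₀ n (by omega)⟩
    rw [this, Set.ncard_coe_finset, Nat.card_Ico]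
    omega
  rw [h7]
  have : (0 : ℝ) ≤ (H : ℝ) := Nat.cast_nonneg _
  nlinarith

/-- **Waring's function and local density.** -/
theorem result :
    -- the order of magnitude of `G`, with explicit constants
    (∀ (δ θ : ℝ) (m b : ℕ), 0 < δ → δ ≤ 1 → 0 < θ → θ < 1 → 4 / δ ^ 2 ≤ m → 2 ≤ θ * 2 ^ b →
      ∀ k : ℕ, 1 ≤ k →
        L δ θ k ≤ G k ∧ G k ≤ (4 * L δ θ k + 1) * m + k * b ∧
          (G k : ℝ) ≤ (5 * m + b / θ) * L δ θ k) ∧
    -- the criterion for the linear bound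
    (∀ A : Set ℕ, (∃ D : ℕ, ∀ k : ℕ, 2 ≤ k → ∃ K ∈ A, K ≠ 0 ∧ k ∣ K ∧ K ≤ D * k) →
      ((∃ C : ℕ, ∀ k : ℕ, 2 ≤ k → ∃ m : ℕ, m ≤ C * k ∧
          ∃ n₀ : ℕ, ∀ n : ℕ, n₀ ≤ n → ∃ x : Fin m → ℕ, n = ∑ i, x i ^ k) ↔
        ∃ (C : ℕ) (δ θ : ℝ), 0 < δ ∧ 0 < θ ∧ ∀ K ∈ A, 2 ≤ K →
          ∃ s : ℕ, s ≤ C * K ∧ LocDense δ θ K s)) := by
  refine ⟨?_, ?_⟩
  · intro δ θ m b hδ hδ1 hθ hθ1 hm hb k hk
    by_cases hne : {s : ℕ | LocDense δ θ k s}.Nonempty
    · have hL : LocDense δ θ k (L δ θ k) := Nat.sInf_mem hne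
      have hG := main1 hδ hθ hm hb hk hL
      have h1 : G k ≤ (4 * L δ θ k + 1) * m + k * b := Nat.sInf_le hG
      have h2 := le_of_locDense hδ hk hL
      have hk0 : (0 : ℝ) < k := by exact_mod_cast hk
      have hL1 : (1 : ℝ) ≤ L δ θ k := by
        have : (0 : ℝ) < L δ θ k := lt_of_lt_of_le (by positivity) h2
        have : 0 < L δ θ k := by exact_mod_cast this
        exact_mod_cast this
      refine ⟨?_, h1, ?_⟩
      · have hGne : {s : ℕ | ∃ n₀ : ℕ, ∀ n : ℕ, n₀ ≤ n → IsSum k s n}.Nonempty := ⟨_, hG⟩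
        exact Nat.sInf_le (locDense_of_all hδ1 hθ1 (Nat.sInf_mem hGne))
      · have h3 : (G k : ℝ) ≤ (4 * L δ θ k + 1) * m + k * b := by exact_mod_cast h1
        have h4 : (k : ℝ) ≤ L δ θ k / θ := by
          rw [le_div_iff₀ hθ]
          linarith [mul_comm θ (k : ℝ)]
        have h5 : (k : ℝ) * b ≤ (L δ θ k / θ) * b :=
          mul_le_mul_of_nonneg_right h4 (Nat.cast_nonneg _)
        have h6 : (4 * (L δ θ k : ℝ) + 1) * m ≤ (5 * L δ θ k) * m :=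
          mul_le_mul_of_nonneg_right (by linarith) (Nat.cast_nonneg _)
        calc (G k : ℝ) ≤ (4 * L δ θ k + 1) * m + k * b := h3
          _ ≤ (5 * L δ θ k) * m + (L δ θ k / θ) * b := add_le_add h6 h5
          _ = (5 * m + b / θ) * L δ θ k := by ring
    · have hL0 : L δ θ k = 0 := by
        rw [L, Set.not_nonempty_iff_eq_empty.1 hne, Nat.sInf_empty]
      have hG0 : G k = 0 := by
        have h2 : {s : ℕ | ∃ n₀ : ℕ, ∀ n : ℕ, n₀ ≤ n → IsSum k s n} = ∅ := by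
          rw [Set.eq_empty_iff_forall_notMem]
          intro s hs
          exact hne ⟨s, locDense_of_all hδ1 hθ1 hs⟩
        rw [G, h2, Nat.sInf_empty]
      rw [hL0, hG0]
      refine ⟨le_rfl, Nat.zero_le _, ?_⟩
      simp
  · rintro A ⟨D, hD⟩
    constructor
    · rintro ⟨C, hC⟩
      refine ⟨C, 1 / 2, 1 / 2, by norm_num, by norm_num, fun K _ hK2 => ?_⟩
      obtain ⟨m, hm, h⟩ := hC K hK2
      exact ⟨m, hm, locDense_of_all (by norm_num) (by norm_num) h⟩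
    · rintro ⟨C, δ, θ, hδ, hθ, h⟩
      obtain ⟨C', hC'⟩ := main2 hδ hθ
      refine ⟨C' * (C * D), fun k hk => ?_⟩
      obtain ⟨K, hKA, hK0, hkK, hKD⟩ := hD k hk
      have hK2 : 2 ≤ K := hk.trans (Nat.le_of_dvd (Nat.pos_of_ne_zero hK0) hkK)
      obtain ⟨s, hs, hloc⟩ := h K hKA hK2
      obtain ⟨n₀, hn₀⟩ := hC' K (by omega) s hloc
      refine ⟨C' * s, ?_, n₀, fun n hn => (hn₀ n hn).of_dvd hkK⟩
      calc C' * s ≤ C' * (C * (D * k)) :=
            Nat.mul_le_mul_left _ (hs.trans (Nat.mul_le_mul_left _ hKD))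
        _ = C' * (C * D) * k := by ring

end Pool.Agent.Results.MP_45c923_nt.LocalDensity
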